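import Pool.Agent.Lib.MP_be29a0_al.Separate

/-!
# A noncommutative rational function without simple rational eigenvalues

Over `k = ℚ` there is a noncommutative rational function `r` in two variables such that at every
tuple of square matrices over `K = ℚ(t)` in the domain of `r`, the value of `r` has no simple
eigenvalue lying in `K`.

The function is `r = Y + Y⁻¹`, where, for the two variables `p, q`,
`κ = p q - q p`, `c = κ⁻¹ (p² + q³ - 4 q)`, `X = c² + q + κ⁻¹ q κ`, `Y = p - q c - c X`.
The elements `X` and `Y` commute and satisfy `Y² = X³ - 4 X`, so the free skew field contains the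
function field of an elliptic curve of rank zero all of whose rational points are poles of `r`.
-/

set_option autoImplicit false

namespace Pool.Agent.Results.MP_be29a0_al.NoSimpleEigenvalue

open Pool.Agent.Lib.MPbe29a0

/-- There is a noncommutative rational function over `ℚ` (the class of a nondegenerate rational
expression `r`) such that, for every expression `s` representing the same function and every tuple
`Ξ` of matrices over `ℚ(t)` of any size at which `s` is defined, no element of `ℚ(t)` is a root of
multiplicity one of the characteristic polynomial of the value at `Ξ`. -/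
theorem result : ∃ r : RatExpr ℚ 2, r.Nondegenerate ∧
    ∀ s : RatExpr ℚ 2, s.Nondegenerate → r.Equivalent s →
      ∀ n : ℕ, 1 ≤ n → ∀ Ξ : Fin 2 → Matrix (Fin n) (Fin n) (RatFunc ℚ), s.DefinedAt Ξ →
        ∀ μ : RatFunc ℚ, (s.eval Ξ).charpoly.rootMultiplicity μ ≠ 1 := by
  refine ⟨exR, ⟨2, by norm_num, pt2 ℚ, (pt2_spec ℚ).1⟩, ?_⟩
  intro s _ hs n hn Ξ hΞ μ hμ
  have hK : ∀ x y : RatFunc ℚ, y ≠ 0 → y * y ≠ x * x * x - 4 * x := no_point
  rcases Nat.lt_or_ge n 2 with h | h
  · -- scalar points: pass to size three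
    obtain rfl : n = 1 := by omega
    obtain ⟨Υ, hΥ, hΥr⟩ := separating_point no_sqrt s hs
      ⟨_, (RatExpr.sum Ξ Ξ s hΞ hΞ).1⟩ μ
    obtain ⟨h1, h2⟩ := RatExpr.sum Ξ Υ s hΞ hΥ
    obtain ⟨Ω, hΩ⟩ := exists_pt 3 (by norm_num)
    apply no_simple hK Ω hΩ s hs _ h1 μ
    rw [h2, Matrix.coe_reindexAlgEquiv, Matrix.charpoly_reindex,
      Matrix.charpoly_fromBlocks_zero₁₂, Polynomial.rootMultiplicity_mul, hμ,
      Polynomial.rootMultiplicity_eq_zero hΥr]
    exact mul_ne_zero (Matrix.charpoly_monic _).ne_zero (Matrix.charpoly_monic _).ne_zero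
  · obtain ⟨Ω, hΩ⟩ := exists_pt n h
    exact no_simple hK Ω hΩ s hs Ξ hΞ μ hμ

end Pool.Agent.Results.MP_be29a0_al.NoSimpleEigenvalue
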